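import Pool.Agent.K6.H65.VD.EC2

/-!
# The closure of the set of boundary values of the L-functions of elliptic curves

`E_1, …, E_r` are elliptic curves over number fields `K_1, …, K_r` (equal or different).  The Euler
product `L(E_j/K_j, s)` converges for `Re s > 3/2`; a continuation across any point of the edge
`Re s = 3/2` is not known in general.  Let `log L(E_j/K_j, s)` be the logarithm on this half-plane which
tends to zero at infinity.  It has boundary values at almost all points of the edge.  For real numbers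
`h_1, …, h_r` we consider the curve in `ℂ^r` of the vectors

`l(τ) = (log L(E_1/K_1, 3/2 + i(τ + h_1)), …, log L(E_r/K_r, 3/2 + i(τ + h_r)))`

and determine the structure of the closure `S` of the set of its values.  Let `A_j(p)` be the sum of the
traces `a_v(E_j)` over the primes `v` of `K_j` of norm `p`.  Call `c ∈ ℂ^r` tame if

`∑_p |∑_j c_j A_j(p) p^{-3/2 - i h_j}| < ∞`.

The tame vectors form a linear subspace `V`; let `W` be its annihilator.  The theorem says that `S + W = S`,
and that `S` is compact modulo `W`; and that each neighbourhood of each point of `S` is visited by `l(τ)`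
with a frequency bounded from below in all long intervals.  More precisely each combination
`∑_j c_j log L(E_j/K_j, s + i h_j)` either extends to a bounded continuous function on the closed
half-plane `Re s ≥ 3/2` (if `c` is tame) or its boundary values on the edge are dense in `ℂ`.
-/

set_option autoImplicit false

namespace Pool.Agent.Results.MP_bf61d2_nt.ClosureOfEdgeValues

open NumberField IsDedekindDomain MeasureTheory Filter Topology

/-- `W v` is, for every finite place `v`, an integral model of `E` with discriminant minimal at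
`v`. -/
def MinimalModels {K : Type} [Field K] [NumberField K] (E : WeierstrassCurve K)
    (W : HeightOneSpectrum (𝓞 K) → WeierstrassCurve (𝓞 K)) : Prop :=
  ∀ v : HeightOneSpectrum (𝓞 K),
    (∃ C : WeierstrassCurve.VariableChange K, C • (W v).map (algebraMap (𝓞 K) K) = E) ∧
    ∀ W' : WeierstrassCurve (𝓞 K),
      (∃ C : WeierstrassCurve.VariableChange K, C • W'.map (algebraMap (𝓞 K) K) = E) →
      ∀ n : ℕ, (W v).Δ ∈ v.asIdeal ^ n → W'.Δ ∈ v.asIdeal ^ n

/-- `a_v`: the norm `Nv` minus the number of affine points of the reduction of `W v`.  For good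
reduction this is `Nv + 1 - #E(k_v)`, for bad reduction it is `1`, `-1`, `0` in the split
multiplicative, non-split multiplicative, additive case. -/
noncomputable def a {K : Type} [Field K] [NumberField K]
    (W : HeightOneSpectrum (𝓞 K) → WeierstrassCurve (𝓞 K)) (v : HeightOneSpectrum (𝓞 K)) : ℤ :=
  (Ideal.absNorm v.asIdeal : ℤ) -
    (Nat.card {xy : (𝓞 K ⧸ v.asIdeal) × (𝓞 K ⧸ v.asIdeal) //
      ((W v).map (Ideal.Quotient.mk v.asIdeal)).toAffine.Equation xy.1 xy.2} : ℤ)

open Classical in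
/-- The Euler factor at `v`, `(1 - a_v Nv^{-s} + Nv^{1-2s})⁻¹` if the reduction at `v` is good and
`(1 - a_v Nv^{-s})⁻¹` if it is bad. -/
noncomputable def localFactor {K : Type} [Field K] [NumberField K]
    (W : HeightOneSpectrum (𝓞 K) → WeierstrassCurve (𝓞 K)) (v : HeightOneSpectrum (𝓞 K))
    (s : ℂ) : ℂ :=
  (1 - (a W v : ℂ) * (Ideal.absNorm v.asIdeal : ℂ) ^ (-s)
    + (if (W v).Δ ∈ v.asIdeal then 0 else (Ideal.absNorm v.asIdeal : ℂ))
        * (Ideal.absNorm v.asIdeal : ℂ) ^ (-2 * s))⁻¹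

/-- The `L`-function, as the Euler product over all finite places. -/
noncomputable def LSeries {K : Type} [Field K] [NumberField K]
    (W : HeightOneSpectrum (𝓞 K) → WeierstrassCurve (𝓞 K)) (s : ℂ) : ℂ :=
  ∏' v : HeightOneSpectrum (𝓞 K), localFactor W v s

/-- `ℓ` is the logarithm of `L` on the half-plane `Re s > 3/2` which tends to zero for
`s → +∞`. -/
def IsLog (L ℓ : ℂ → ℂ) : Prop :=
  DifferentiableOn ℂ ℓ {s | 3 / 2 < s.re} ∧ (∀ s : ℂ, 3 / 2 < s.re → Complex.exp (ℓ s) = L s) ∧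
    Tendsto (fun x : ℝ => ℓ x) atTop (𝓝 0)

/-- The point `3/2 + iτ` of the edge. -/
noncomputable def edge (τ : ℝ) : ℂ := 3 / 2 + τ * Complex.I

/-- The angle `|s - (3/2 + iτ)| ≤ C (Re s - 3/2)` in the half-plane `Re s > 3/2`. -/
def angle (τ C : ℝ) : Set ℂ :=
  {s : ℂ | 3 / 2 < s.re ∧ ‖s - edge τ‖ ≤ C * (s.re - 3 / 2)}

/-- `A(p)`: the sum of the `a_v` over the primes `v` of norm `p`. -/
noncomputable def trace {K : Type} [Field K] [NumberField K]
    (W : HeightOneSpectrum (𝓞 K) → WeierstrassCurve (𝓞 K)) (p : ℕ) : ℤ :=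
  ∑ᶠ (v : HeightOneSpectrum (𝓞 K)) (_ : Ideal.absNorm v.asIdeal = p), a W v

/-- The vector `c` is tame: `∑_p |∑_j c_j A_j(p) p^{-3/2 - i h_j}| < ∞`. -/
def Tame {r : ℕ} {K : Fin r → Type} [∀ j, Field (K j)] [∀ j, NumberField (K j)]
    (W : ∀ j, HeightOneSpectrum (𝓞 (K j)) → WeierstrassCurve (𝓞 (K j))) (h : Fin r → ℝ)
    (c : Fin r → ℂ) : Prop :=
  Summable fun p : Nat.Primes =>
    ‖∑ j, c j * (trace (W j) p * ((p : ℕ) : ℂ) ^ (-(3 / 2 + h j * Complex.I) : ℂ))‖

/-- **The closure of the set of joint boundary values.**  Let `E_j` be elliptic curves over number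
fields `K_j`, `j = 1, …, r`, and `h_j` real numbers.  There are a set `N` of real numbers of Hausdorff
dimension `0` and a function `l` from the real line to `ℂ^r` such that, if `S` is the closure of the set
of the `l(τ)`, `τ ∉ N`, then

1. `L(E_j/K_j, s)` has a logarithm `ℓ_j` on `Re s > 3/2` which tends to zero for `s → +∞`, and for
   `τ ∉ N` the limit of `ℓ_j(s)`, as `s` tends to `3/2 + i(τ + h_j)` in any angle, is `l_j(τ)`;
2. if `y ∈ S` and `w` is a vector with `∑ c_j w_j = 0` for all tame `c`, then `y + w ∈ S`;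
3. if `c` is tame, then `∑ c_j ℓ_j(s + i h_j)` extends to a bounded continuous function on the closed
   half-plane `Re s ≥ 3/2`;
4. if `c` is not tame, then the values `∑ c_j l_j(τ)`, `τ ∉ N`, are dense in `ℂ`;
5. for every `y ∈ S` and `ε > 0` there are `δ > 0` and `H₀` such that in each interval of length
   `H ≥ H₀` the set of the `τ ∉ N` with `|l(τ) - y| < ε` has measure at least `δ H`. -/
theorem result (r : ℕ) (K : Fin r → Type) [∀ j, Field (K j)] [∀ j, NumberField (K j)]
    (E : ∀ j, WeierstrassCurve (K j)) [∀ j, (E j).IsElliptic]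
    (W : ∀ j, HeightOneSpectrum (𝓞 (K j)) → WeierstrassCurve (𝓞 (K j)))
    (_ : ∀ j, MinimalModels (E j) (W j)) (h : Fin r → ℝ) :
    ∃ (ℓ : Fin r → ℂ → ℂ) (l : ℝ → Fin r → ℂ) (N : Set ℝ), dimH N = 0 ∧
      (∀ j, IsLog (LSeries (W j)) (ℓ j)) ∧
      (∀ τ : ℝ, τ ∉ N → ∀ (j : Fin r) (C : ℝ),
        Tendsto (ℓ j) (𝓝[angle (τ + h j) C] (edge (τ + h j))) (𝓝 (l τ j))) ∧
      (∀ y ∈ closure (l '' Nᶜ), ∀ w : Fin r → ℂ,
        (∀ c : Fin r → ℂ, Tame W h c → ∑ j, c j * w j = 0) → y + w ∈ closure (l '' Nᶜ)) ∧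
      (∀ c : Fin r → ℂ, Tame W h c → ∃ Φ : ℂ → ℂ, ContinuousOn Φ {s | 3 / 2 ≤ s.re} ∧
        (∃ B : ℝ, ∀ s : ℂ, 3 / 2 ≤ s.re → ‖Φ s‖ ≤ B) ∧
        ∀ s : ℂ, 3 / 2 < s.re → Φ s = ∑ j, c j * ℓ j (s + h j * Complex.I)) ∧
      (∀ c : Fin r → ℂ, ¬ Tame W h c → Dense ((fun τ => ∑ j, c j * l τ j) '' Nᶜ)) ∧
      (∀ y ∈ closure (l '' Nᶜ), ∀ ε : ℝ, 0 < ε → ∃ δ : ℝ, 0 < δ ∧ ∃ H₀ : ℝ, 0 < H₀ ∧
        ∀ H : ℝ, H₀ ≤ H → ∀ x : ℝ,
          δ * H ≤ volume.real (Set.Icc x (x + H) ∩ {τ | τ ∉ N ∧ ‖l τ - y‖ < ε})) := by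
  classical
  set D : Fin r → Pool.Agent.K6.H65.VD.LF := fun j => Pool.Agent.K6.H65.VD.ecLF (W j) with hD
  have hav : ∀ j v, (a (W j) v : ℝ) = Pool.Agent.TH339.MP.av (W j) v := by
    intro j v
    have h1 : (Nat.card {xy : (𝓞 (K j) ⧸ v.asIdeal) × (𝓞 (K j) ⧸ v.asIdeal) //
            ((W j v).map (Ideal.Quotient.mk v.asIdeal)).toAffine.Equation xy.1 xy.2}) =
        Pool.Agent.TH339.MP.affc ((W j v).map (Ideal.Quotient.mk v.asIdeal)) := by
      unfold Pool.Agent.TH339.MP.affc
      refine Nat.card_congr (Equiv.subtypeEquivRight fun q => ?_)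
      exact WeierstrassCurve.Affine.equation_iff ..
    unfold a Pool.Agent.TH339.MP.av Pool.Agent.TH339.MP.nm
    rw [h1]
    push_cast
    rfl
  have hlf : ∀ j v s, localFactor (W j) v s = Pool.Agent.TH339.MP.elf (W j) v s := by
    intro j v s
    unfold localFactor Pool.Agent.TH339.MP.elf Pool.Agent.TH339.MP.lfac
    rw [← hav]
    push_cast
    rfl
  have hL : ∀ j (s : ℂ), 3 / 2 < s.re →
      Complex.exp ((D j).F (s - 3 / 2)) = LSeries (W j) s := by
    intro j s hs
    have h1 : 0 < (s - 3 / 2).re := by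
      have : (s - 3 / 2).re = s.re - 3 / 2 := by simp
      rw [this]
      linarith
    have h2 := Pool.Agent.K6.H65.VD.ec_hasProd (W j) h1
    rw [sub_add_cancel] at h2
    unfold LSeries
    rw [← h2.tprod_eq]
    exact (tprod_congr fun v => hlf j v s).symm
  have htame : ∀ c, Tame W h c ↔ Pool.Agent.K6.H65.VD.JTame D h c := by
    intro c
    unfold Tame Pool.Agent.K6.H65.VD.JTame
    refine summable_congr_cofinite ?_
    have h2 : {p : Nat.Primes | (p : ℕ) < 5}.Finite := Pool.Agent.K6.H65.BJ.finite_primesLt 5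
    filter_upwards [h2.compl_mem_cofinite] with p hp
    have hp' : ¬ ((p : ℕ) < 5) := hp
    congr 1
    refine Finset.sum_congr rfl fun j _ => ?_
    rw [Pool.Agent.K6.H65.VD.vec_ec (W j) D h j rfl (by omega)]
    have h3 := Pool.Agent.K6.H65.VD.tr1_eq (W j) p (a (W j)) (hav j)
    have h4 : ((trace (W j) p : ℤ) : ℂ) = ((Pool.Agent.K6.H65.VD.tr1 (W j) p : ℝ) : ℂ) := by
      rw [← h3]
      unfold trace
      push_cast
      rfl
    rw [h4]
  have hre : ∀ s : ℂ, (s - 3 / 2).re = s.re - 3 / 2 := fun s => by simp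
  refine ⟨fun j s => (D j).F (s - 3 / 2), Pool.Agent.K6.H65.VD.jl D h,
    Pool.Agent.K6.H65.VD.jbad D h, Pool.Agent.K6.H65.VD.dimH_jbad D h, fun j => ⟨?_, ?_, ?_⟩,
    fun τ hτ j C => ?_, fun y hy w hw => ?_, fun c hc => ?_, fun c hc => ?_,
    fun y hy ε hε => Pool.Agent.K6.H65.VD.j_freq D h hy hε⟩
  · intro s hs
    have hs' : (3 : ℝ) / 2 < s.re := hs
    have h1 : (0 : ℝ) < (s - 3 / 2).re := by
      rw [hre]
      linarith
    have h2 := ((D j).differentiableOn_F).differentiableAt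
      ((Pool.Agent.K6.H65.UE.isOpen_right 0).mem_nhds h1)
    exact (DifferentiableAt.comp (g := (D j).F) (f := fun s : ℂ => s - 3 / 2) s h2
      (differentiableAt_id.sub_const _)).differentiableWithinAt
  · exact fun s hs => hL j s hs
  · have h1 := (D j).tendsto_infty
    have h2 : Tendsto (fun x : ℝ => x - 3 / 2) atTop atTop :=
      tendsto_atTop_add_const_right _ _ tendsto_id
    refine (h1.comp h2).congr fun x => ?_
    simp only [Function.comp]
    push_cast
    rfl
  · have hb : τ + h j ∉ Pool.Agent.K6.H65.BJ.badSet' (D j).b := fun h1 => hτ ⟨j, h1⟩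
    have h1 := (D j).tendsto_angle hb C
    have h2 : Tendsto (fun s : ℂ => s - 3 / 2) (𝓝[angle (τ + h j) C] (edge (τ + h j)))
        (𝓝[{s : ℂ | 0 < s.re ∧ ‖s - ((τ + h j : ℝ) : ℂ) * Complex.I‖ ≤ C * s.re}]
          (((τ + h j : ℝ) : ℂ) * Complex.I)) := by
      refine tendsto_nhdsWithin_iff.2 ⟨?_, ?_⟩
      · have h3 : Tendsto (fun s : ℂ => s - 3 / 2) (𝓝 (edge (τ + h j)))
            (𝓝 (edge (τ + h j) - 3 / 2)) := (continuous_id.sub continuous_const).tendsto _
        have h4 : edge (τ + h j) - 3 / 2 = ((τ + h j : ℝ) : ℂ) * Complex.I := by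
          unfold edge
          ring
        rw [h4] at h3
        exact h3.mono_left nhdsWithin_le_nhds
      · filter_upwards [self_mem_nhdsWithin] with s hs
        refine ⟨?_, ?_⟩
        · rw [hre]
          linarith [hs.1]
        · rw [hre]
          have h4 : s - 3 / 2 - ((τ + h j : ℝ) : ℂ) * Complex.I = s - edge (τ + h j) := by
            unfold edge
            ring
          rw [h4]
          exact hs.2
    exact h1.comp h2
  · exact Pool.Agent.K6.H65.VD.j_add D h hy fun c hc => hw c ((htame c).2 hc)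
  · obtain ⟨Φ, h1, ⟨B, h2⟩, h3⟩ := Pool.Agent.K6.H65.VD.j_tame D h ((htame c).1 hc)
    refine ⟨fun s => Φ (s - 3 / 2), ?_, ⟨B, fun s hs => h2 _ ?_⟩, fun s hs => ?_⟩
    · refine h1.comp (continuous_id.sub continuous_const).continuousOn ?_
      intro s hs
      have hs' : (3 : ℝ) / 2 ≤ s.re := hs
      show (0 : ℝ) ≤ (s - 3 / 2).re
      rw [hre]
      linarith
    · rw [hre]
      linarith
    · have h4 := h3 (s - 3 / 2) (by rw [hre]; linarith)
      show Φ (s - 3 / 2) = _
      rw [h4]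
      refine Finset.sum_congr rfl fun j _ => ?_
      congr 2
      ring
  · exact Pool.Agent.K6.H65.VD.dense_of_not_tame D h fun h1 => hc ((htame c).2 h1)

end Pool.Agent.Results.MP_bf61d2_nt.ClosureOfEdgeValues
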