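import Pool.Agent.K6.H77.HV.Alg

/-!
# Elliptic curves over number fields: twists by Hecke characters of infinite order on `Re s = 3/2`

`F` is an arbitrary number field and `E` an elliptic curve over `F`, given by an integral Weierstrass
equation `W` with discriminant `≠ 0`.  For a unitary Hecke character (Größencharakter) `ψ` of `F`, of
any conductor and any infinity type, `L(E ⊗ ψ, s)` is the Euler product over the primes `v` of `F`
whose factor is, for all but finitely many `v`, `(1 - a_v ψ(v) q_v^{-s} + ψ(v)² q_v^{1 - 2s})⁻¹`,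
`a_v = q_v + 1 - #E(k_v)`.  For the trivial `ψ` it is `L(E/F, s)`; if all endomorphisms of `E` are
defined over `F`, `E` has complex multiplication and `ψ` is the inverse of the normalised Hecke
character of `E`, then it has a simple pole at `3/2`.

The proof uses the equidistribution of the values of Hecke characters (of infinite order: not
characters of the Galois group) and the fact that `a_v / √q_v` is real and of absolute value at
most `2`; the latter gives an `L¹`-bound in place of an `L²`-bound.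
-/

set_option autoImplicit false

namespace Pool.Agent.Results.MP_bf61d2_nt.InfiniteOrderTwists

open Complex Filter Topology NumberField IsDedekindDomain Polynomial ComplexConjugate

/-- The number of solutions of the affine Weierstrass equation of `V` with coordinates in `R`. -/
noncomputable def affineCount {R : Type} [CommRing R] (V : WeierstrassCurve R) : ℕ :=
  Nat.card {P : R × R // P.2 ^ 2 + V.a₁ * P.1 * P.2 + V.a₃ * P.2 =
    P.1 ^ 3 + V.a₂ * P.1 ^ 2 + V.a₄ * P.1 + V.a₆}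

/-- `a_v = q_v + 1 - #E(k_v)`, `k_v` the residue field of `v` and `q_v` its number of elements; there is
one point at infinity. -/
noncomputable def frobTrace {F : Type} [Field F] [NumberField F] (W : WeierstrassCurve (𝓞 F))
    (v : HeightOneSpectrum (𝓞 F)) : ℤ :=
  (Ideal.absNorm v.asIdeal : ℤ) + 1 - ((affineCount (W.map (Ideal.Quotient.mk v.asIdeal)) : ℤ) + 1)

/-- `ψ` is a unitary Hecke character of `F` modulo `𝔪` of infinity type `(n, ν)`, as a multiplicative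
function on the ideals of `F`: it vanishes exactly at the ideals that are not prime to `𝔪`, and
`ψ((x)) = ∏_w (w(x) / |w(x)|)^{n_w} |w(x)|^{i ν_w}` (over the infinite places `w`, `w(x)` the image
of `x` under an embedding of `w`) for all `x ≡ 1` modulo `𝔪` that are positive at all real places.
(The function `𝔞 ↦ N(𝔞)^{it}` is one, for every real `t`.) -/
structure IsHeckeCharacter {F : Type} [Field F] [NumberField F] (𝔪 : Ideal (𝓞 F))
    (n : InfinitePlace F → ℤ) (ν : InfinitePlace F → ℝ) (ψ : Ideal (𝓞 F) →*₀ ℂ) : Prop where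
  ne_bot : 𝔪 ≠ ⊥
  supp : ∀ 𝔞 : Ideal (𝓞 F), 𝔞 ≠ ⊥ → (ψ 𝔞 ≠ 0 ↔ IsCoprime 𝔞 𝔪)
  ray : ∀ x : 𝓞 F, x ≠ 0 → x - 1 ∈ 𝔪 → (∀ σ : F →+* ℝ, 0 < σ (x : F)) →
    ψ (Ideal.span {x}) = ∏ w : InfinitePlace F,
      ((w.embedding (x : F) / (‖w.embedding (x : F)‖ : ℂ)) ^ n w *
        (‖w.embedding (x : F)‖ : ℂ) ^ ((ν w : ℂ) * I))

/-- The polynomials `B v` are the Euler factors of `E ⊗ ψ` at all but finitely many primes `v`:
`B_v(z) = 1 - a_v ψ(v) z + q_v ψ(v)² z²`. -/
def IsEulerFactor {F : Type} [Field F] [NumberField F] (W : WeierstrassCurve (𝓞 F))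
    (ψ : Ideal (𝓞 F) →*₀ ℂ) (B : HeightOneSpectrum (𝓞 F) → ℂ[X]) : Prop :=
  ∀ᶠ v in cofinite, ∀ z : ℂ, (B v).eval z = 1 - (frobTrace W v : ℂ) * ψ v.asIdeal * z +
    (Ideal.absNorm v.asIdeal : ℂ) * ψ v.asIdeal ^ 2 * z ^ 2

/-- The Euler product `∏_v B_v(q_v^{-s})⁻¹`. -/
noncomputable def eulerProduct {F : Type} [Field F] [NumberField F]
    (B : HeightOneSpectrum (𝓞 F) → ℂ[X]) (s : ℂ) : ℂ :=
  ∏' v : HeightOneSpectrum (𝓞 F), ((B v).eval ((Ideal.absNorm v.asIdeal : ℂ) ^ (-s)))⁻¹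

/-- `log |L(3/2 + iτ + ε)| / log (1/ε)`, which tends to the order of the pole at `3/2 + iτ` if there is
a meromorphic continuation to a neighbourhood. -/
noncomputable def size {F : Type} [Field F] [NumberField F]
    (B : HeightOneSpectrum (𝓞 F) → ℂ[X]) (τ ε : ℝ) : ℝ :=
  Real.log ‖eulerProduct B (3 / 2 + τ * I + ε)‖ / Real.log (1 / ε)

/-- The values at the primes of the character `ψ_τ = ψ · N^{-iτ}`; the behaviour of `L(E ⊗ ψ, s)` at
`3/2 + iτ` is that of `L(E ⊗ ψ_τ, s)` at `3/2`. -/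
noncomputable def val {F : Type} [Field F] [NumberField F] (ψ : Ideal (𝓞 F) →*₀ ℂ) (τ : ℝ)
    (v : HeightOneSpectrum (𝓞 F)) : ℂ :=
  ψ v.asIdeal * (Ideal.absNorm v.asIdeal : ℂ) ^ (-(τ * I))

/-- The character with the values `c v` has infinite order. -/
def InfiniteOrder {F : Type} [Field F] [NumberField F] (c : HeightOneSpectrum (𝓞 F) → ℂ) : Prop :=
  ∀ j : ℕ, 0 < j → ¬ ∀ᶠ v in cofinite, c v ^ j = 1

/-- The character with the values `c v` is real (quadratic or trivial). -/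
def IsReal {F : Type} [Field F] [NumberField F] (c : HeightOneSpectrum (𝓞 F) → ℂ) : Prop :=
  ∀ᶠ v in cofinite, c v ^ 2 = 1

/-- The characters with the values `c v` and `d v` are equal or complex conjugate. -/
def Related {F : Type} [Field F] [NumberField F] (c d : HeightOneSpectrum (𝓞 F) → ℂ) : Prop :=
  (∀ᶠ v in cofinite, d v = c v) ∨ ∀ᶠ v in cofinite, d v = conj (c v)

/-- `M` is the mean value of the function `φ` on the primes:
`∑_v φ(v) q_v^{-1-ε} / log (1/ε) → M` for `ε → 0+`. -/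
def IsMean {F : Type} [Field F] [NumberField F] (φ : HeightOneSpectrum (𝓞 F) → ℝ) (M : ℝ) : Prop :=
  Tendsto (fun ε : ℝ => (∑' v, φ v * (Ideal.absNorm v.asIdeal : ℝ) ^ (-(1 + ε))) /
    Real.log (1 / ε)) (𝓝[>] 0) (𝓝 M)

/-- **Twists of an elliptic curve over a number field by Hecke characters of infinite order.**

Let `ψ_k` (`k ∈ κ`) be unitary Hecke characters of `F` of arbitrary moduli and infinity types,
`τ_k ∈ ℝ`, `s_k = 3/2 + iτ_k`, `χ_k = ψ_k N^{-iτ_k}`; `L_k` the Euler product of `E ⊗ ψ_k` with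
arbitrary polynomials, not zero at `q_v^{-s_k}`, as factors at finitely many primes; and
`x_k(ε) = log |L_k(s_k + ε)| / log(1/ε)`.  Nothing is assumed about continuation in 1-4.

1. For real numbers `a_k` and finite `S`, `|∑_{k ∈ S} a_k Re χ_k|` has a mean value `M` over the
primes, and `|∑_{k ∈ S} a_k x_k(ε)| ≤ 2 M + η` for all `η > 0` and all small `ε > 0`.
2. If `χ_k` has infinite order, then `|x_k(ε)| ≤ 4/π + η`.
3. If `χ_k` has infinite order and `χ_l` is real, then for `0 ≤ c ≤ 1`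
`|x_k(ε)| + c |x_l(ε)| ≤ (4/π) (√(1 - c²) + c arcsin c) + η`.
4. If `χ_k` has infinite order and `χ_l` is not real and neither equal to `χ_k` nor its conjugate, then
`|x_k(ε)| + |x_l(ε)| ≤ 2 - 1/72 + η`.
5. If the `L_k` have meromorphic continuations to neighbourhoods of the `s_k`, then these have finite
orders `m_k` at `s_k`, and `|∑_{k ∈ S} a_k m_k| ≤ 2 M`.  If `m_k ≠ 0` for some `k` with `χ_k` of infinite
order, then `m_k = ±1` and `m_l = 0` for all `l` such that `χ_l` is neither `χ_k` nor its conjugate.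
So, over all Hecke characters `ψ` and all points `3/2 + iτ` of the line together: either a zero or a
pole is possible only for those with `ψ N^{-iτ}` of finite order, or exactly one pair of conjugate
characters `ψ N^{-iτ}` has a zero or a pole, and it is simple (as for the curves with complex
multiplication over `F`). -/
theorem result (F : Type) [Field F] [NumberField F] (W : WeierstrassCurve (𝓞 F)) (hΔ : W.Δ ≠ 0)
    (κ : Type) (𝔪 : κ → Ideal (𝓞 F)) (n : κ → InfinitePlace F → ℤ) (ν : κ → InfinitePlace F → ℝ)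
    (ψ : κ → Ideal (𝓞 F) →*₀ ℂ) (hψ : ∀ k, IsHeckeCharacter (𝔪 k) (n k) (ν k) (ψ k)) (τ : κ → ℝ)
    (B : κ → HeightOneSpectrum (𝓞 F) → ℂ[X]) (hB : ∀ k, IsEulerFactor W (ψ k) (B k))
    (hB0 : ∀ k, ∀ v,
      (B k v).eval ((Ideal.absNorm v.asIdeal : ℂ) ^ (-(3 / 2 + τ k * I : ℂ))) ≠ 0) :
    (∀ (S : Finset κ) (a : κ → ℝ), ∃ M : ℝ,
      IsMean (fun v => |∑ k ∈ S, a k * (val (ψ k) (τ k) v).re|) M ∧
      ∀ η : ℝ, 0 < η → ∀ᶠ ε : ℝ in 𝓝[>] 0,
        |∑ k ∈ S, a k * size (B k) (τ k) ε| ≤ 2 * M + η) ∧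
    (∀ k, InfiniteOrder (val (ψ k) (τ k)) → ∀ η : ℝ, 0 < η →
      (∀ᶠ ε : ℝ in 𝓝[>] 0, |size (B k) (τ k) ε| ≤ 4 / Real.pi + η) ∧
      (∀ l, IsReal (val (ψ l) (τ l)) → ∀ c : ℝ, 0 ≤ c → c ≤ 1 → ∀ᶠ ε : ℝ in 𝓝[>] 0,
        |size (B k) (τ k) ε| + c * |size (B l) (τ l) ε| ≤
          4 / Real.pi * (Real.sqrt (1 - c ^ 2) + c * Real.arcsin c) + η) ∧
      (∀ l, ¬ IsReal (val (ψ l) (τ l)) → ¬ Related (val (ψ k) (τ k)) (val (ψ l) (τ l)) →
        ∀ᶠ ε : ℝ in 𝓝[>] 0,
          |size (B k) (τ k) ε| + |size (B l) (τ l) ε| ≤ 2 - 1 / 72 + η)) ∧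
    (∀ Λ : κ → ℂ → ℂ, (∀ k, MeromorphicAt (Λ k) (3 / 2 + τ k * I) ∧
      ∀ᶠ s in 𝓝 (3 / 2 + τ k * I : ℂ), 3 / 2 < s.re → Λ k s = eulerProduct (B k) s) →
      ∃ m : κ → ℤ, (∀ k, meromorphicOrderAt (Λ k) (3 / 2 + τ k * I) = m k) ∧
        (∀ (S : Finset κ) (a : κ → ℝ) (M : ℝ),
          IsMean (fun v => |∑ k ∈ S, a k * (val (ψ k) (τ k) v).re|) M →
          |∑ k ∈ S, a k * m k| ≤ 2 * M) ∧
        (∀ k, InfiniteOrder (val (ψ k) (τ k)) → m k ≠ 0 → |m k| = 1 ∧
          ∀ l, ¬ Related (val (ψ k) (τ k)) (val (ψ l) (τ l)) → m l = 0)) := by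
  classical
  -- the characters
  set c : κ → HeightOneSpectrum (𝓞 F) → ℂ := fun k => val (ψ k) (τ k) with hc
  have hHF : ∀ k, K6.H77.HV.HF (c k) := by
    intro k
    have h1 : K6.H77.HV.IsHC (𝔪 k) (n k) (ν k) (ψ k) := ⟨(hψ k).ne_bot, (hψ k).supp, (hψ k).ray⟩
    have h2 := (h1.tw (-τ k)).hf
    have h3 : c k = fun v => K6.H77.HV.tw (-τ k) (ψ k) v.asIdeal := by
      funext v
      rw [hc, K6.H77.HV.tw_apply]
      unfold val
      push_cast
      rw [neg_mul]
    rw [h3]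
    exact h2
  -- the sizes
  have hcorr : ∀ k, (∀ᶠ ε : ℝ in 𝓝[>] 0, eulerProduct (B k) (3 / 2 + τ k * I + ε) ≠ 0) ∧
      K6.H77.HV.Cor (K6.H77.HV.fv W) (c k) (size (B k) (τ k)) := by
    intro k
    have hpow : ∀ (v : HeightOneSpectrum (𝓞 F)) (s : ℂ),
        (Ideal.absNorm v.asIdeal : ℂ) ^ (-(τ k * I)) * (Ideal.absNorm v.asIdeal : ℂ) ^ (-s) =
          (Ideal.absNorm v.asIdeal : ℂ) ^ (-(s + τ k * I)) := by
      intro v s
      have hvc : ((Ideal.absNorm v.asIdeal : ℕ) : ℂ) ≠ 0 := by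
        have := W353.L1.nm_pos v
        unfold W540.BE.nm at this
        exact_mod_cast this.ne'
      rw [← Complex.cpow_add _ _ hvc]
      congr 1
      ring
    have hev : ∀ (v : HeightOneSpectrum (𝓞 F)) (z : ℂ),
        ((B k v).comp (Polynomial.C ((Ideal.absNorm v.asIdeal : ℂ) ^ (-(τ k * I))) *
          Polynomial.X)).eval z =
          (B k v).eval ((Ideal.absNorm v.asIdeal : ℂ) ^ (-(τ k * I)) * z) := by
      intro v z
      rw [Polynomial.eval_comp, Polynomial.eval_mul, Polynomial.eval_C, Polynomial.eval_X]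
    obtain ⟨h1, h2⟩ := K6.H77.HV.corr W hΔ (c k) (hHF k).1 (hHF k).ae
      (fun v => (B k v).comp (Polynomial.C ((Ideal.absNorm v.asIdeal : ℂ) ^ (-(τ k * I))) *
        Polynomial.X)) (by
        filter_upwards [hB k] with v hv z
        rw [hev, hv]
        change 1 - (W540.BE.trv W v : ℂ) * ψ k v.asIdeal * _ +
          ((W540.BE.nm F v : ℕ) : ℂ) * ψ k v.asIdeal ^ 2 * _ = _
        rw [hc]
        unfold val
        unfold W540.BE.nm
        ring)
      (by
        intro v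
        rw [hev]
        change (B k v).eval ((Ideal.absNorm v.asIdeal : ℂ) ^ (-(τ k * I)) *
          (Ideal.absNorm v.asIdeal : ℂ) ^ (-(3 / 2 : ℂ))) ≠ 0
        rw [hpow]
        exact hB0 k v)
      (fun s => eulerProduct (B k) (s + τ k * I)) (by
        intro s _
        unfold eulerProduct
        refine tprod_congr fun v => ?_
        rw [hev]
        change _ = ((B k v).eval ((Ideal.absNorm v.asIdeal : ℂ) ^ (-(τ k * I)) *
          (Ideal.absNorm v.asIdeal : ℂ) ^ (-s)))⁻¹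
        rw [hpow])
    have e : ∀ ε : ℝ, (3 / 2 + (ε : ℂ) + τ k * I) = 3 / 2 + τ k * I + ε := fun ε => by ring
    simp only [e] at h1 h2
    exact ⟨h1, h2⟩
  have hcor := fun k => (hcorr k).2
  have hf : ∀ v, |K6.H77.HV.fv W v| ≤ 2 := K6.H77.HV.abs_fv_le W
  have hsup : ∀ (S : Finset κ) (a : κ → ℝ), ∃ M : ℝ,
      IsMean (fun v => |∑ k ∈ S, a k * (c k v).re|) M ∧
      ∀ η : ℝ, 0 < η → ∀ᶠ ε : ℝ in 𝓝[>] 0,
        |∑ k ∈ S, a k * size (B k) (τ k) ε| ≤ 2 * M + η := by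
    intro S a
    obtain ⟨M, h1, h2⟩ := K6.H77.HV.cor_sup hf S c (fun k _ => hHF k)
      (fun k => size (B k) (τ k)) (fun k _ => hcor k) a
    exact ⟨M, K6.H77.HV.Has.log h1, h2⟩
  have hinf : ∀ k, InfiniteOrder (c k) → ∀ η : ℝ, 0 < η →
      (∀ᶠ ε : ℝ in 𝓝[>] 0, |size (B k) (τ k) ε| ≤ 4 / Real.pi + η) ∧
      (∀ l, IsReal (c l) → ∀ d : ℝ, 0 ≤ d → d ≤ 1 → ∀ᶠ ε : ℝ in 𝓝[>] 0,
        |size (B k) (τ k) ε| + d * |size (B l) (τ l) ε| ≤
          4 / Real.pi * (Real.sqrt (1 - d ^ 2) + d * Real.arcsin d) + η) ∧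
      (∀ l, ¬ IsReal (c l) → ¬ Related (c k) (c l) →
        ∀ᶠ ε : ℝ in 𝓝[>] 0,
          |size (B k) (τ k) ε| + |size (B l) (τ l) ε| ≤ 2 - 1 / 72 + η) := by
    intro k hk η hη
    refine ⟨K6.H77.HV.cor_inf hf (hHF k) (hcor k) hk hη, fun l hl d hd0 hd1 => ?_,
      fun l hl hkl => ?_⟩
    · exact K6.H77.HV.cor_real hf (hHF k) (hHF l) (hcor k) (hcor l) hk hl hd0 hd1 hη
    · exact K6.H77.HV.cor_nonreal hf (hHF k) (hHF l) (hcor k) (hcor l) hk hl
        (not_or.1 hkl).1 (not_or.1 hkl).2 hη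
  refine ⟨hsup, hinf, fun Λ hΛ => ?_⟩
  have hord : ∀ k, ∃ m : ℤ, meromorphicOrderAt (Λ k) (3 / 2 + τ k * I) = m ∧
      Tendsto (size (B k) (τ k)) (𝓝[>] 0) (𝓝 (-(m : ℝ))) := by
    intro k
    have hev : ∀ᶠ ε : ℝ in 𝓝[>] 0, Λ k (3 / 2 + τ k * I + ε) =
        eulerProduct (B k) (3 / 2 + τ k * I + ε) := by
      have h4 := (Pool.Agent.H341R2.path_tendsto' (3 / 2 + τ k * I : ℂ)).eventually (hΛ k).2
      filter_upwards [h4, self_mem_nhdsWithin] with ε h5 h6
      have hε : (0 : ℝ) < ε := h6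
      refine h5 ?_
      have e : (3 / 2 + (τ k : ℂ) * I + (ε : ℂ)).re = 3 / 2 + ε := by simp
      rw [e]
      linarith
    have hne : ∀ᶠ ε : ℝ in 𝓝[>] 0, Λ k (3 / 2 + τ k * I + ε) ≠ 0 := by
      filter_upwards [hev, (hcorr k).1] with ε h5 h6
      rw [h5]
      exact h6
    obtain ⟨m, hm1, hm2⟩ := W540.BE.order_of_size (hΛ k).1 hne
    refine ⟨m, hm1, hm2.congr' ?_⟩
    filter_upwards [hev] with ε h5
    rw [h5]
    rfl
  choose m hm1 hm2 using hord
  refine ⟨m, hm1, fun S a M hM => ?_, fun k hk hmk => ?_⟩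
  · obtain ⟨M', h1, h2⟩ := hsup S a
    have h3 : M = M' := tendsto_nhds_unique hM h1
    rw [h3]
    have h4 : Tendsto (fun ε : ℝ => |∑ k ∈ S, a k * size (B k) (τ k) ε|) (𝓝[>] 0)
        (𝓝 |∑ k ∈ S, a k * (-(m k : ℝ))|) :=
      (tendsto_finsetSum _ fun k _ => (hm2 k).const_mul _).abs
    have h5 := K6.H77.HV.le_of_ev h4 h2
    have h6 : ∑ k ∈ S, a k * (-(m k : ℝ)) = -∑ k ∈ S, a k * m k := by
      rw [← Finset.sum_neg_distrib]
      exact Finset.sum_congr rfl fun k _ => by ring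
    rw [h6, abs_neg] at h5
    exact h5
  · have habs : ∀ k, Tendsto (fun ε => |size (B k) (τ k) ε|) (𝓝[>] 0) (𝓝 ((|m k| : ℤ) : ℝ)) := by
      intro k
      have := (hm2 k).abs
      rw [abs_neg] at this
      push_cast
      exact this
    have hm0 : 0 < |m k| := abs_pos.2 hmk
    have hm0' : (1 : ℝ) ≤ ((|m k| : ℤ) : ℝ) := by exact_mod_cast hm0
    constructor
    · have h1 := K6.H77.HV.le_of_ev (habs k) fun η hη => (hinf k hk η hη).1
      have h2 : 4 / Real.pi < 2 := by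
        rw [div_lt_iff₀ Real.pi_pos]
        linarith [Real.pi_gt_three]
      have h3 : ((|m k| : ℤ) : ℝ) < ((2 : ℤ) : ℝ) := by
        push_cast at h1 ⊢
        linarith
      have h4 : |m k| < 2 := by exact_mod_cast h3
      omega
    · intro l hkl
      by_contra hml
      have hl0 : 0 < |m l| := abs_pos.2 hml
      have hl0' : (1 : ℝ) ≤ ((|m l| : ℤ) : ℝ) := by exact_mod_cast hl0
      by_cases hr : IsReal (c l)
      · have h1 : Tendsto (fun ε => |size (B k) (τ k) ε| + 3 / 5 * |size (B l) (τ l) ε|) (𝓝[>] 0)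
            (𝓝 (((|m k| : ℤ) : ℝ) + 3 / 5 * ((|m l| : ℤ) : ℝ))) :=
          (habs k).add ((habs l).const_mul _)
        have h2 := K6.H77.HV.le_of_ev h1 fun η hη =>
          (hinf k hk η hη).2.1 l hr (3 / 5) (by norm_num) (by norm_num)
        have h3 := K6.H77.HV.bb_lt
        unfold K6.H77.HV.bb at h3
        linarith
      · have h1 : Tendsto (fun ε => |size (B k) (τ k) ε| + |size (B l) (τ l) ε|) (𝓝[>] 0)
            (𝓝 (((|m k| : ℤ) : ℝ) + ((|m l| : ℤ) : ℝ))) :=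
          (habs k).add (habs l)
        have h2 := K6.H77.HV.le_of_ev h1 fun η hη => (hinf k hk η hη).2.2 l hr hkl
        linarith

end Pool.Agent.Results.MP_bf61d2_nt.InfiniteOrderTwists
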