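import Pool.Agent.K6.H77.WT.Gal

/-!
# Elliptic curves over number fields: twists by a Hecke character of infinite order, and uniqueness

`F` is an arbitrary number field and `E` an elliptic curve over `F`, given by an integral Weierstrass
equation `W` with discriminant `≠ 0`.  For a finite-dimensional unitary representation `ρ` of the Weil
group of `F`, `L(E ⊗ ρ, s)` is the Euler product over the primes `v` of `F` whose factor is, for all but
finitely many `v`, `det(1 - a_v q_v^{-s} ρ(Frob_v) + q_v^{1 - 2s} ρ(Frob_v)²)⁻¹`, `a_v = q_v + 1 - #E(k_v)`.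
For the trivial `ρ` it is `L(E/F, s)`.  A continuation beyond `Re s > 3/2` is not known in general.

The representations are given as integral combinations of representations induced from Hecke characters
of finite extensions (`WRep`); by the theorem of Brauer, every representation of the Weil group is one.

The theorem: if `ψ |·|^{-iτ₀}` is a Hecke character of infinite order and `L(E ⊗ ψ, s)` has a zero or a
pole at `3/2 + iτ₀`, then it is simple, and `L(E ⊗ ρ, s)` has neither a zero nor a pole at any point of the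
line `Re s = 3/2` for every other irreducible `ρ`, of any dimension (up to conjugation).  The hypothesis
is satisfied by `ψ = 1`, `τ₀ ≠ 0`, that is for `L(E/F, s)` itself outside of the point `3/2`.
The proof: the values of `ψ |·|^{-iτ₀}` can be rotated on a Galois closure by the values of characters of
infinite order without moving the traces of self-conjugate representations and of Artin
representations; the mean value of `|cos θ + w|` over `θ` is at most `2/π + (π/8) w²`.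
-/

set_option autoImplicit false

namespace Pool.Agent.Results.MP_bf61d2_nt.UniqueTwist

open Complex Filter Topology NumberField IsDedekindDomain Polynomial ComplexConjugate
open Pool.Agent.N172.HS (WRep IsHecke)
open Pool.Agent.K6.H65.WS (shift ip)
open Pool.Agent.K6.H77.WT (Unrel NonArtin dm cjW ofHecke gI gV)

/-- The number of solutions of the affine Weierstrass equation of `V` with coordinates in `R`. -/
noncomputable def affineCount {R : Type} [CommRing R] (V : WeierstrassCurve R) : ℕ :=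
  Nat.card {P : R × R // P.2 ^ 2 + V.a₁ * P.1 * P.2 + V.a₃ * P.2 =
    P.1 ^ 3 + V.a₂ * P.1 ^ 2 + V.a₄ * P.1 + V.a₆}

/-- `a_v = q_v + 1 - #E(k_v)`, `k_v` the residue field of `v` and `q_v` its number of elements; there is
one point at infinity. -/
noncomputable def frobTrace {F : Type} [Field F] [NumberField F] (W : WeierstrassCurve (𝓞 F))
    (v : HeightOneSpectrum (𝓞 F)) : ℤ :=
  (Ideal.absNorm v.asIdeal : ℤ) + 1 - ((affineCount (W.map (Ideal.Quotient.mk v.asIdeal)) : ℤ) + 1)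

/-- The polynomials `B v` are the Euler factors of `L(E ⊗ ρ, s)`: for almost all primes `v`,
`B_v(z) = ∏_l (1 - a_v γ_l z + q_v γ_l² z²)` with numbers `γ_l` of absolute value one (the eigenvalues of
`ρ(Frob_v)`) with the sum `tr ρ(Frob_v)`; at the other primes `B v` is an arbitrary polynomial, and no
factor `1 / B_v(q_v^{-s})` has a pole on the line `Re s = 3/2`. -/
def IsEulerFactor {F : Type} [Field F] [NumberField F] (W : WeierstrassCurve (𝓞 F)) (ρ : WRep F)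
    (B : HeightOneSpectrum (𝓞 F) → ℂ[X]) : Prop :=
  (∃ m : ℕ, ∀ᶠ v : HeightOneSpectrum (𝓞 F) in cofinite, ∃ γ : Fin m → ℂ,
    (∀ l, ‖γ l‖ = 1) ∧ ∑ l, γ l = ρ.trace v ∧ ∀ z : ℂ, (B v).eval z =
      ∏ l, (1 - (frobTrace W v : ℂ) * γ l * z + (Ideal.absNorm v.asIdeal : ℂ) * γ l ^ 2 * z ^ 2)) ∧
  ∀ (v : HeightOneSpectrum (𝓞 F)) (τ : ℝ),
    (B v).eval ((Ideal.absNorm v.asIdeal : ℂ) ^ (-(3 / 2 + τ * I : ℂ))) ≠ 0

/-- The Euler product `∏_v B_v(q_v^{-s})⁻¹`. -/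
noncomputable def eulerProduct {F : Type} [Field F] [NumberField F]
    (B : HeightOneSpectrum (𝓞 F) → ℂ[X]) (s : ℂ) : ℂ :=
  ∏' v : HeightOneSpectrum (𝓞 F), ((B v).eval ((Ideal.absNorm v.asIdeal : ℂ) ^ (-s)))⁻¹

/-- `log |L(3/2 + iτ + ε)| / log (1/ε)`. -/
noncomputable def size {F : Type} [Field F] [NumberField F]
    (B : HeightOneSpectrum (𝓞 F) → ℂ[X]) (τ ε : ℝ) : ℝ :=
  Real.log ‖eulerProduct B (3 / 2 + τ * I + ε)‖ / Real.log (1 / ε)

/-- `L(s)` has the order `r` at `3/2 + iτ` (positive for a zero, negative for a pole), in the sense that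
`log |L(3/2 + iτ + ε)| / log (1/ε) → -r`; nothing is assumed about continuation. -/
def HasOrder {F : Type} [Field F] [NumberField F] (B : HeightOneSpectrum (𝓞 F) → ℂ[X]) (τ : ℝ)
    (r : ℤ) : Prop := Tendsto (size B τ) (𝓝[>] 0) (𝓝 (-(r : ℝ)))

theorem affineCount_map {R S : Type} [CommRing R] [CommRing S] (e : R ≃+* S)
    (V : WeierstrassCurve R) : affineCount (V.map (e : R →+* S)) = affineCount V := by
  unfold affineCount
  refine (Nat.card_congr (Equiv.subtypeEquiv (e.toEquiv.prodCongr e.toEquiv) ?_)).symm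
  rintro ⟨x, y⟩
  rw [← e.injective.eq_iff]
  simp

/-- The Hecke character `ψ |·|^{-iτ}`, `𝔞 ↦ ψ(𝔞) N(𝔞)^{-iτ}`, has infinite order. -/
def InfiniteOrder {F : Type} [Field F] [NumberField F] (ψ : Ideal (𝓞 F) →*₀ ℂ) (τ : ℝ) : Prop :=
  ∀ n : ℕ, 0 < n → ∃ 𝔞 : Ideal (𝓞 F), ψ 𝔞 ≠ 0 ∧
    (ψ 𝔞 * (Ideal.absNorm 𝔞 : ℂ) ^ (-(τ * I : ℂ))) ^ n ≠ 1

open Classical in
/-- **Uniqueness of the zero or pole of the twists of infinite order.**  Let `ψ` be a unitary Hecke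
character of `F`, `τ₀` a real number, `x_ψ(ε) = log |L(E ⊗ ψ, 3/2 + iτ₀ + ε)| / log(1/ε)`.

1. If `ψ` is of finite order and `τ₀ ≠ 0`, then `ψ |·|^{-iτ₀}` has infinite order.  From now on
   `ψ |·|^{-iτ₀}` has infinite order.
2. Let the `ρ_k ⊗ |·|^{-iτ_k}` be irreducible, pairwise neither equivalent nor conjugate, each of them
   self-conjugate or an Artin representation, `w_k = 1` if it is self-conjugate and `w_k = 2` if not, and
   `x_k(ε) = log |L(E ⊗ ρ_k, 3/2 + iτ_k + ε)| / log(1/ε)`.  Then for all `η > 0` and small `ε > 0`,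
   `π |x_ψ(ε)| + ∑ w_k x_k(ε)² ≤ 4 + η`.
3. If `L(E ⊗ ψ, s)` has the order `r₀ ≠ 0` at `3/2 + iτ₀`, then `r₀ = ±1`, and if `L(E ⊗ ρ, s)` has the
   order `r` at `3/2 + iτ`, where `ρ ⊗ |·|^{-iτ}` is irreducible and not equivalent to `ψ |·|^{-iτ₀}` or its
   conjugate, then `r = 0`.
4. Let `L(E ⊗ ψ, s)` have an order `r₀ ≠ 0` at `3/2 + iτ₀`.  Let `g` be an automorphism of `F`, and `χ` a Hecke
   character such that `χ(v)² = 1` and `a_{g(v)} = χ(v) a_v` for almost all `v`.  Then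
   `(ψ ∘ g) χ |·|^{-iτ₀}` is `ψ |·|^{-iτ₀}` or its conjugate.
5. `a_{g(v)} = a_v` if `g` fixes the coefficients of `W` (so that 4. applies with `χ = 1`).
6. If `L(E ⊗ ρ, s)` has a meromorphic continuation to a neighbourhood of `3/2 + iτ`, then it has a finite
   order there, and this is the order in the sense of 3. and 4. -/
theorem result (F : Type) [Field F] [NumberField F] (W : WeierstrassCurve (𝓞 F)) (hΔ : W.Δ ≠ 0)
    (𝔣 : Ideal (𝓞 F)) (k : (F →+* ℂ) → ℤ) (t : (F →+* ℂ) → ℝ) (ψ : Ideal (𝓞 F) →*₀ ℂ)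
    (hψ : IsHecke 𝔣 k t ψ) (τ₀ : ℝ) (B₀ : HeightOneSpectrum (𝓞 F) → ℂ[X])
    (hB₀ : IsEulerFactor W (ofHecke hψ) B₀) :
    ((∃ n : ℕ, 0 < n ∧ ∀ 𝔞 : Ideal (𝓞 F), ψ 𝔞 ≠ 0 → ψ 𝔞 ^ n = 1) → τ₀ ≠ 0 → InfiniteOrder ψ τ₀) ∧
    (InfiniteOrder ψ τ₀ →
      (∀ (κ : Type) [Fintype κ] (ρ : κ → WRep F) (τ : κ → ℝ) (w : κ → ℕ), Unrel ρ τ w →
        (∀ k, w k = 1 ∨ ¬ NonArtin (shift (ρ k) (τ k))) →
        ∀ B : κ → HeightOneSpectrum (𝓞 F) → ℂ[X], (∀ k, IsEulerFactor W (ρ k) (B k)) →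
          ∀ η : ℝ, 0 < η → ∀ᶠ ε : ℝ in 𝓝[>] 0,
            Real.pi * |size B₀ τ₀ ε| + ∑ k, w k * size (B k) (τ k) ε ^ 2 ≤ 4 + η) ∧
      ∀ r₀ : ℤ, HasOrder B₀ τ₀ r₀ → r₀ ≠ 0 → |r₀| = 1 ∧
        (∀ (ρ : WRep F) (τ : ℝ), ρ.inner ρ = 1 → dm ρ ≠ 0 →
          ip ρ τ (ofHecke hψ) τ₀ = 0 → ip ρ τ (cjW (ofHecke hψ)) (-τ₀) = 0 →
          ∀ B : HeightOneSpectrum (𝓞 F) → ℂ[X], IsEulerFactor W ρ B →
            ∀ r : ℤ, HasOrder B τ r → r = 0) ∧
        ∀ (g : F ≃+* F) (𝔤 : Ideal (𝓞 F)) (l : (F →+* ℂ) → ℤ) (u : (F →+* ℂ) → ℝ)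
          (χ : Ideal (𝓞 F) →*₀ ℂ), IsHecke 𝔤 l u χ →
          (∀ᶠ v in cofinite, χ v.asIdeal ^ 2 = 1 ∧
            (frobTrace W (gV g v) : ℂ) = χ v.asIdeal * frobTrace W v) →
          (∀ 𝔞 : Ideal (𝓞 F), ψ (gI g 𝔞) * χ 𝔞 ≠ 0 → ψ 𝔞 ≠ 0 → ψ (gI g 𝔞) * χ 𝔞 = ψ 𝔞) ∨
          ∀ 𝔞 : Ideal (𝓞 F), ψ (gI g 𝔞) * χ 𝔞 ≠ 0 → ψ 𝔞 ≠ 0 →
            ψ (gI g 𝔞) * χ 𝔞 * (Ideal.absNorm 𝔞 : ℂ) ^ (-(τ₀ * I : ℂ)) =
              conj (ψ 𝔞 * (Ideal.absNorm 𝔞 : ℂ) ^ (-(τ₀ * I : ℂ)))) ∧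
    (∀ g : F ≃+* F, W.map (RingOfIntegers.mapRingHom (g : F →+* F)) = W →
      ∀ v, frobTrace W (gV g v) = frobTrace W v) ∧
    ∀ (ρ : WRep F) (B : HeightOneSpectrum (𝓞 F) → ℂ[X]), IsEulerFactor W ρ B →
      ∀ (τ : ℝ) (Λ : ℂ → ℂ), MeromorphicAt Λ (3 / 2 + τ * I) →
        (∀ᶠ s in 𝓝 (3 / 2 + τ * I : ℂ), 3 / 2 < s.re → Λ s = eulerProduct B s) →
        ∃ r : ℤ, meromorphicOrderAt Λ (3 / 2 + τ * I) = r ∧ HasOrder B τ r := by
  have hT : ∀ {ρ : WRep F} {B : HeightOneSpectrum (𝓞 F) → ℂ[X]}, IsEulerFactor W ρ B →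
      K6.H65.WS.IsTensor (K6.H77.WT.ME W hΔ) ρ B := fun h => K6.H77.WT.isTensor_ME W hΔ h.1 h.2
  have hedge : ∀ τ : ℝ, K6.H65.WS.edge (K6.H77.WT.ME W hΔ).weight τ = 3 / 2 + τ * I := by
    intro τ
    change (((1 : ℤ) : ℂ)) / 2 + 1 + τ * I = _
    push_cast
    ring
  have hsize : ∀ (B : HeightOneSpectrum (𝓞 F) → ℂ[X]) (τ ε : ℝ),
      K6.H65.WS.size (K6.H77.WT.ME W hΔ).weight B τ ε = size B τ ε := by
    intro B τ ε
    unfold K6.H65.WS.size size
    rw [hedge]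
    rfl
  have hord : ∀ {B : HeightOneSpectrum (𝓞 F) → ℂ[X]} {τ : ℝ} {r : ℤ}, HasOrder B τ r →
      K6.H65.WS.HasOrder (K6.H77.WT.ME W hΔ).weight B τ r := by
    intro B τ r h
    exact h.congr fun ε => (hsize B τ ε).symm
  have hrank : ((K6.H77.WT.ME W hΔ).rank : ℝ) = 2 := Nat.cast_ofNat
  have hrank0 : 0 < (K6.H77.WT.ME W hΔ).rank := by
    change 0 < 2
    norm_num
  have hinf : InfiniteOrder ψ τ₀ ↔
      ¬ K6.H77.WT.FinOrd (N172.HS.mulc ψ (K6.H65.WS.nchar F (-τ₀))) := by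
    have e : ∀ 𝔞 : Ideal (𝓞 F), ψ 𝔞 ≠ 0 → N172.HS.mulc ψ (K6.H65.WS.nchar F (-τ₀)) 𝔞 =
        ψ 𝔞 * (Ideal.absNorm 𝔞 : ℂ) ^ (-(τ₀ * I : ℂ)) := by
      intro 𝔞 h1
      have h0 : 𝔞 ≠ ⊥ := by
        rintro rfl
        exact h1 (map_zero _)
      rw [N172.HS.mulc_apply, K6.H65.WS.nchar_apply _ h0]
      congr 2
      push_cast
      ring
    have e2 : ∀ 𝔞 : Ideal (𝓞 F), N172.HS.mulc ψ (K6.H65.WS.nchar F (-τ₀)) 𝔞 ≠ 0 ↔ ψ 𝔞 ≠ 0 := by
      intro 𝔞
      by_cases h1 : ψ 𝔞 = 0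
      · rw [N172.HS.mulc_apply, h1, zero_mul]
      · have h0 : 𝔞 ≠ ⊥ := by
          rintro rfl
          exact h1 (map_zero _)
        rw [N172.HS.mulc_apply]
        refine ⟨fun _ => h1, fun _ => mul_ne_zero h1 ?_⟩
        rw [← norm_ne_zero_iff, K6.H65.WS.norm_nchar _ h0]
        exact one_ne_zero
    unfold InfiniteOrder K6.H77.WT.FinOrd
    push Not
    refine forall_congr' fun n => forall_congr' fun _ => exists_congr fun 𝔞 => ?_
    rw [e2]
    exact and_congr_right fun h1 => by rw [e 𝔞 h1]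
  refine ⟨fun hf hτ => hinf.2 (K6.H77.WT.finOrd_height hψ hf hτ), fun hi => ⟨?_, ?_⟩, ?_, ?_⟩
  · intro κ _ ρ τ w hU hA B hB η hη
    filter_upwards [K6.H77.WT.edge_inf (K6.H77.WT.ME W hΔ) hrank0 hψ τ₀ (hinf.1 hi) hU hA B₀ (hT hB₀)
      B (fun k => hT (hB k)) hη] with ε h1
    simp only [hsize] at h1
    rw [hrank] at h1
    have e : Real.pi * 2 / 2 * |size B₀ τ₀ ε| = Real.pi * |size B₀ τ₀ ε| := by ring
    rw [e] at h1
    linarith
  · intro r₀ hr₀ h0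
    obtain ⟨h1, h2⟩ := K6.H77.WT.order_unique (K6.H77.WT.ME W hΔ) rfl hψ τ₀ (hinf.1 hi) (hT hB₀)
      (hord hr₀) h0
    refine ⟨h1, fun ρ τ hρ hd hp hp' B hB r hr => h2 ρ τ hρ hd hp hp' B (hT hB) r (hord hr), ?_⟩
    intro g 𝔤 l u χ hχ hg
    -- the twist by the conjugate character
    have h' := (K6.H77.WT.isHecke_gal g hψ).mul hχ
    have hnorm : ∀ v, Ideal.absNorm (gV g v).asIdeal = Ideal.absNorm v.asIdeal := fun v => by
      rw [K6.H77.WT.gV_asIdeal, K6.H77.WT.gI_absNorm]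
    have hB' : IsEulerFactor W (ofHecke h') (fun v => B₀ (gV g v)) := by
      obtain ⟨⟨m, h3⟩, h4⟩ := hB₀
      refine ⟨⟨m, ?_⟩, fun v τ => ?_⟩
      · filter_upwards [(gV g).injective.tendsto_cofinite.eventually h3, hg] with v h5 h6
        obtain ⟨γ, h7, h8, h9⟩ := h5
        have h10 : ‖χ v.asIdeal‖ = 1 := by
          refine hχ.unit _ fun h11 => ?_
          rw [h11] at h6
          exact zero_ne_one ((zero_pow two_ne_zero).symm.trans h6.1)
        refine ⟨fun l => γ l * χ v.asIdeal, fun l => by rw [norm_mul, h7, h10, one_mul], ?_,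
          fun z => ?_⟩
        · rw [← Finset.sum_mul, h8, K6.H77.WT.ofHecke_trace, K6.H77.WT.ofHecke_trace,
            N172.HS.mulc_apply, K6.H77.WT.gal_apply, K6.H77.WT.gV_asIdeal]
        · rw [h9]
          refine Finset.prod_congr rfl fun l _ => ?_
          rw [hnorm, h6.2, mul_pow, h6.1]
          ring
      · rw [← hnorm v]
        exact h4 (gV g v) τ
    have hprod : ∀ s : ℂ, eulerProduct (fun v => B₀ (gV g v)) s = eulerProduct B₀ s := by
      intro s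
      unfold eulerProduct
      refine Eq.trans ?_ ((gV g).tprod_eq _)
      exact tprod_congr fun v => by rw [hnorm v]
    have hr' : HasOrder (fun v => B₀ (gV g v)) τ₀ r₀ := by
      refine hr₀.congr fun ε => ?_
      unfold size
      rw [hprod]
    have hq : ∀ 𝔞 : Ideal (𝓞 F), ψ 𝔞 ≠ 0 → (Ideal.absNorm 𝔞 : ℂ) ^ (-(τ₀ * I : ℂ)) ≠ 0 := by
      intro 𝔞 h3
      have h4 : 𝔞 ≠ ⊥ := by
        rintro rfl
        exact h3 (map_zero _)
      rw [← norm_ne_zero_iff,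
        Complex.norm_natCast_cpow_of_pos (K6.H65.WS.absNorm_pos' h4)]
      exact (Real.rpow_pos_of_pos (by exact_mod_cast K6.H65.WS.absNorm_pos' h4) _).ne'
    by_cases hp : ip (ofHecke h') τ₀ (ofHecke hψ) τ₀ = 0
    · by_cases hp' : ip (ofHecke h') τ₀ (cjW (ofHecke hψ)) (-τ₀) = 0
      · exact absurd (h2 (ofHecke h') τ₀ (K6.H77.WT.ofHecke_inner h')
          (by rw [K6.H77.WT.ofHecke_dm]; exact one_ne_zero) hp hp' _ (hT hB') r₀ (hord hr')) h0
      · right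
        intro 𝔞 ha ha'
        exact K6.H77.WT.eq_of_ip_conj h' hψ hp' 𝔞 ha ha'
    · left
      intro 𝔞 ha ha'
      exact mul_right_cancel₀ (hq 𝔞 ha') (K6.H77.WT.eq_of_ip h' hψ hp 𝔞 ha ha')
  · intro g hg v
    unfold frobTrace
    have hnorm : Ideal.absNorm (gV g v).asIdeal = Ideal.absNorm v.asIdeal := by
      rw [K6.H77.WT.gV_asIdeal, K6.H77.WT.gI_absNorm]
    rw [hnorm]
    congr 2
    have hid : (gV g v).asIdeal = v.asIdeal.map (K6.H77.WT.gi g : 𝓞 F →+* 𝓞 F) :=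
      K6.H77.WT.gV_asIdeal g v
    set e : 𝓞 F ⧸ v.asIdeal ≃+* 𝓞 F ⧸ (gV g v).asIdeal :=
      Ideal.quotientEquiv v.asIdeal (gV g v).asIdeal (K6.H77.WT.gi g) hid with he
    have hW : W.map (Ideal.Quotient.mk (gV g v).asIdeal) =
        (W.map (Ideal.Quotient.mk v.asIdeal)).map (e : _ →+* _) := by
      conv_lhs => rw [← hg]
      rw [WeierstrassCurve.map_map, WeierstrassCurve.map_map]
      rfl
    rw [hW]
    exact_mod_cast affineCount_map e _
  · intro ρ B hB τ Λ hΛ1 hΛ2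
    obtain ⟨h1, -⟩ := K6.H65.WS.tensor_size (hT hB) τ
    obtain ⟨r, h2, h3⟩ := K6.H65.WS.order_of_continuation (K6.H77.WT.ME W hΔ).weight B τ h1
      (Λ := Λ) (by rw [hedge]; exact hΛ1) (by
        rw [hedge]
        filter_upwards [hΛ2] with s hs h4
        refine hs ?_
        have e : (((K6.H77.WT.ME W hΔ).weight : ℤ) : ℝ) = 1 := Int.cast_one
        rw [e] at h4
        linarith)
    rw [hedge] at h2
    exact ⟨r, h2, h3.congr fun ε => hsize B τ ε⟩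

end Pool.Agent.Results.MP_bf61d2_nt.UniqueTwist
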