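import Pool.Agent.K6.H77.WT.Siz

/-!
# Elliptic curves over number fields: all twists by representations of the Weil group on `Re s = 3/2`

`F` is an arbitrary number field and `E` an elliptic curve over `F`, given by an integral Weierstrass
equation `W` with discriminant `≠ 0`.  For a finite-dimensional unitary representation `ρ` of the Weil
group of `F`, `L(E ⊗ ρ, s)` is the Euler product over the primes `v` of `F` whose factor is, for all but
finitely many `v`, `det(1 - a_v q_v^{-s} ρ(Frob_v) + q_v^{1 - 2s} ρ(Frob_v)²)⁻¹`, `a_v = q_v + 1 - #E(k_v)`.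
For the trivial `ρ` it is `L(E/F, s)`.

The representations are given as integral combinations of representations induced from Hecke characters
of finite extensions (`WRep`); by the theorem of Brauer, every representation of the Weil group is one.
-/

set_option autoImplicit false

namespace Pool.Agent.Results.MP_bf61d2_nt.WeilTwistsMean

open Complex Filter Topology NumberField IsDedekindDomain Polynomial
open Pool.Agent.N172.HS (WRep)
open Pool.Agent.K6.H65.WS (shift)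
open Pool.Agent.K6.H77.WT (IsMean reTrace Unrel IsArtin NonArtin dm)

/-- The number of solutions of the affine Weierstrass equation of `V` with coordinates in `R`. -/
noncomputable def affineCount {R : Type} [CommRing R] (V : WeierstrassCurve R) : ℕ :=
  Nat.card {P : R × R // P.2 ^ 2 + V.a₁ * P.1 * P.2 + V.a₃ * P.2 =
    P.1 ^ 3 + V.a₂ * P.1 ^ 2 + V.a₄ * P.1 + V.a₆}

/-- `a_v = q_v + 1 - #E(k_v)`, `k_v` the residue field of `v` and `q_v` its number of elements; there is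
one point at infinity. -/
noncomputable def frobTrace {F : Type} [Field F] [NumberField F] (W : WeierstrassCurve (𝓞 F))
    (v : HeightOneSpectrum (𝓞 F)) : ℤ :=
  (Ideal.absNorm v.asIdeal : ℤ) + 1 - ((affineCount (W.map (Ideal.Quotient.mk v.asIdeal)) : ℤ) + 1)

/-- The polynomials `B v` are the Euler factors of `L(E ⊗ ρ, s)`: for almost all primes `v`,
`B_v(z) = ∏_l (1 - a_v γ_l z + q_v γ_l² z²)` with numbers `γ_l` of absolute value one (the eigenvalues of
`ρ(Frob_v)`) with the sum `tr ρ(Frob_v)`; at the other primes `B v` is an arbitrary polynomial, and no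
factor `1 / B_v(q_v^{-s})` has a pole on the line `Re s = 3/2`. -/
def IsEulerFactor {F : Type} [Field F] [NumberField F] (W : WeierstrassCurve (𝓞 F)) (ρ : WRep F)
    (B : HeightOneSpectrum (𝓞 F) → ℂ[X]) : Prop :=
  (∃ m : ℕ, ∀ᶠ v : HeightOneSpectrum (𝓞 F) in cofinite, ∃ γ : Fin m → ℂ,
    (∀ l, ‖γ l‖ = 1) ∧ ∑ l, γ l = ρ.trace v ∧ ∀ z : ℂ, (B v).eval z =
      ∏ l, (1 - (frobTrace W v : ℂ) * γ l * z + (Ideal.absNorm v.asIdeal : ℂ) * γ l ^ 2 * z ^ 2)) ∧
  ∀ (v : HeightOneSpectrum (𝓞 F)) (τ : ℝ),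
    (B v).eval ((Ideal.absNorm v.asIdeal : ℂ) ^ (-(3 / 2 + τ * I : ℂ))) ≠ 0

/-- The Euler product `∏_v B_v(q_v^{-s})⁻¹`. -/
noncomputable def eulerProduct {F : Type} [Field F] [NumberField F]
    (B : HeightOneSpectrum (𝓞 F) → ℂ[X]) (s : ℂ) : ℂ :=
  ∏' v : HeightOneSpectrum (𝓞 F), ((B v).eval ((Ideal.absNorm v.asIdeal : ℂ) ^ (-s)))⁻¹

/-- `log |L(3/2 + iτ + ε)| / log (1/ε)`. -/
noncomputable def size {F : Type} [Field F] [NumberField F]
    (B : HeightOneSpectrum (𝓞 F) → ℂ[X]) (τ ε : ℝ) : ℝ :=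
  Real.log ‖eulerProduct B (3 / 2 + τ * I + ε)‖ / Real.log (1 / ε)

/-- `L(s)` has the order `r` at `3/2 + iτ` (positive for a zero, negative for a pole), in the sense that
`log |L(3/2 + iτ + ε)| / log (1/ε) → -r`; nothing is assumed about continuation. -/
def HasOrder {F : Type} [Field F] [NumberField F] (B : HeightOneSpectrum (𝓞 F) → ℂ[X]) (τ : ℝ)
    (r : ℤ) : Prop := Tendsto (size B τ) (𝓝[>] 0) (𝓝 (-(r : ℝ)))

open Classical in
/-- **All twists of an elliptic curve over a number field by representations of the Weil group.**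

1. For all unitary representations `ρ_k` of the Weil group of `F` (`k` in a finite set) and real `τ_k`, `c_k`,
   the function `|∑ c_k Re (tr ρ_k(Frob_v) q_v^{-iτ_k})|` on the primes `v` of `F` has a mean value `m`, and
   for `η > 0` and all small `ε > 0`, `|∑ c_k x_k(ε)| ≤ 2 m + η` for the sizes
   `x_k(ε) = log |L(E ⊗ ρ_k, 3/2 + iτ_k + ε)| / log(1/ε)`.
2. Let the `ρ_k ⊗ |·|^{-iτ_k}` be irreducible, pairwise neither equivalent nor conjugate, `w_k = 1` if
   `ρ_k ⊗ |·|^{-iτ_k}` is self-conjugate and `w_k = 2` if not, `a_k` real and `Q = ∑ w_k a_k² > 0`.  Then the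
   mean value `m` of `|∑ w_k a_k Re (tr ρ_k(Frob_v) q_v^{-iτ_k})|` is at most `√Q`; and `m = √Q` only if
   `(∑ w_k a_k dim ρ_k)² = Q` and `∑_J w_k a_k dim ρ_k = 0`, where `J` is the set of the `k` for which
   `ρ_k ⊗ |·|^{-iτ_k}` is not an Artin representation.
3. In the situation of 2., `∑ w_k x_k(ε)² ≤ 4 + η` for small `ε > 0`, and if there are orders `r_k` at the
   points `3/2 + iτ_k`, then
   * `∑ w_k r_k² ≤ 4`, and if `∑ w_k r_k² = 4` then `|∑ w_k r_k dim ρ_k| = 2` and `∑_J w_k r_k dim ρ_k = 0`;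
   * `∑ w_k r_k² ≤ 3` if no `ρ_k ⊗ |·|^{-iτ_k}` is an Artin representation;
   * (with `dim ρ_k > 0`) if `|r_k| ≥ 2`, then `|r_k| = 2`, `ρ_k ⊗ |·|^{-iτ_k}` is a real Artin character of
     dimension one, and `r_l = 0` for `l ≠ k`;
   * (with `dim ρ_k > 0`) if `r_k ≠ 0`, `r_l ≠ 0` for two different non-self-conjugate ones, then both are
     Artin representations, `|dim ρ_k - dim ρ_l| = 1`, `r_l = -r_k = ±1`, and `r_j = 0` for all other `j`.
4. If `L(E ⊗ ρ, s)` has a meromorphic continuation to a neighbourhood of `3/2 + iτ`, then it has a finite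
   order there, and this is the order in the sense of 3.
5. An irreducible `ρ` is either equivalent to an Artin representation or orthogonal to all Artin
   representations (`NonArtin`; not an Artin representation in 2. and 3. means this). -/
theorem result (F : Type) [Field F] [NumberField F] (W : WeierstrassCurve (𝓞 F)) (hΔ : W.Δ ≠ 0) :
    (∀ (κ : Type) [Fintype κ] (ρ : κ → WRep F) (τ c : κ → ℝ), ∃ m : ℝ,
      IsMean (fun v => |∑ k, c k * reTrace (ρ k) (τ k) v|) m ∧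
      ∀ B : κ → HeightOneSpectrum (𝓞 F) → ℂ[X], (∀ k, IsEulerFactor W (ρ k) (B k)) →
        ∀ η : ℝ, 0 < η → ∀ᶠ ε : ℝ in 𝓝[>] 0, |∑ k, c k * size (B k) (τ k) ε| ≤ 2 * m + η) ∧
    (∀ (κ : Type) [Fintype κ] (ρ : κ → WRep F) (τ : κ → ℝ) (w : κ → ℕ), Unrel ρ τ w →
      (∀ (a : κ → ℝ) (m : ℝ), 0 < ∑ k, w k * a k ^ 2 →
        IsMean (fun v => |∑ k, w k * a k * reTrace (ρ k) (τ k) v|) m →
        m ≤ √(∑ k, w k * a k ^ 2) ∧
        (m = √(∑ k, w k * a k ^ 2) →
          (∑ k, w k * a k * (dm (ρ k) : ℝ)) ^ 2 = ∑ k, w k * a k ^ 2 ∧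
          (∑ k, if NonArtin (shift (ρ k) (τ k)) then w k * a k * (dm (ρ k) : ℝ) else 0) = 0)) ∧
      ∀ B : κ → HeightOneSpectrum (𝓞 F) → ℂ[X], (∀ k, IsEulerFactor W (ρ k) (B k)) →
        (∀ η : ℝ, 0 < η → ∀ᶠ ε : ℝ in 𝓝[>] 0, ∑ k, w k * size (B k) (τ k) ε ^ 2 ≤ 4 + η) ∧
        ∀ r : κ → ℤ, (∀ k, HasOrder (B k) (τ k) (r k)) →
          ∑ k, w k * r k ^ 2 ≤ 4 ∧
          (∑ k, w k * r k ^ 2 = 4 → |∑ k, w k * r k * dm (ρ k)| = 2 ∧
            (∑ k, if NonArtin (shift (ρ k) (τ k)) then w k * r k * dm (ρ k) else 0) = 0) ∧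
          ((∀ k, NonArtin (shift (ρ k) (τ k))) → ∑ k, w k * r k ^ 2 ≤ 3) ∧
          ((∀ k, 0 < dm (ρ k)) →
            (∀ k, 2 ≤ |r k| → |r k| = 2 ∧ w k = 1 ∧ dm (ρ k) = 1 ∧
              ¬ NonArtin (shift (ρ k) (τ k)) ∧ ∀ l, l ≠ k → r l = 0) ∧
            ∀ k l, k ≠ l → w k = 2 → w l = 2 → r k ≠ 0 → r l ≠ 0 →
              ¬ NonArtin (shift (ρ k) (τ k)) ∧ ¬ NonArtin (shift (ρ l) (τ l)) ∧
              |dm (ρ k) - dm (ρ l)| = 1 ∧ |r k| = 1 ∧ r l = -r k ∧
              ∀ j, j ≠ k → j ≠ l → r j = 0)) ∧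
    (∀ (ρ : WRep F) (B : HeightOneSpectrum (𝓞 F) → ℂ[X]), IsEulerFactor W ρ B →
      ∀ (τ : ℝ) (Λ : ℂ → ℂ), MeromorphicAt Λ (3 / 2 + τ * I) →
        (∀ᶠ s in 𝓝 (3 / 2 + τ * I : ℂ), 3 / 2 < s.re → Λ s = eulerProduct B s) →
        ∃ r : ℤ, meromorphicOrderAt Λ (3 / 2 + τ * I) = r ∧ HasOrder B τ r) ∧
    ∀ ρ : WRep F, ρ.inner ρ = 1 →
      (∃ π : WRep F, IsArtin π ∧ ρ.inner π = 1 ∧ π.inner π = 1) ∨ NonArtin ρ := by
  have hT : ∀ {ρ : WRep F} {B : HeightOneSpectrum (𝓞 F) → ℂ[X]}, IsEulerFactor W ρ B →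
      K6.H65.WS.IsTensor (K6.H77.WT.ME W hΔ) ρ B := fun h => K6.H77.WT.isTensor_ME W hΔ h.1 h.2
  have hedge : ∀ τ : ℝ, K6.H65.WS.edge (K6.H77.WT.ME W hΔ).weight τ = 3 / 2 + τ * I := by
    intro τ
    change (((1 : ℤ) : ℂ)) / 2 + 1 + τ * I = _
    push_cast
    ring
  have hsize : ∀ (B : HeightOneSpectrum (𝓞 F) → ℂ[X]) (τ ε : ℝ),
      K6.H65.WS.size (K6.H77.WT.ME W hΔ).weight B τ ε = size B τ ε := by
    intro B τ ε
    unfold K6.H65.WS.size size
    rw [hedge]
    rfl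
  have hord : ∀ {B : HeightOneSpectrum (𝓞 F) → ℂ[X]} {τ : ℝ} {r : ℤ}, HasOrder B τ r →
      K6.H65.WS.HasOrder (K6.H77.WT.ME W hΔ).weight B τ r := by
    intro B τ r h
    exact h.congr fun ε => (hsize B τ ε).symm
  have hrank : ((K6.H77.WT.ME W hΔ).rank : ℝ) = 2 := Nat.cast_ofNat
  refine ⟨fun κ _ ρ τ c => ?_, fun κ _ ρ τ w h => ⟨fun a m hQ hm => ?_, fun B hB =>
    ⟨fun η hη => ?_, fun r hr => ?_⟩⟩, fun ρ B hB τ Λ hΛ1 hΛ2 => ?_,
    fun ρ hρ => K6.H77.WT.artin_or_non hρ⟩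
  · obtain ⟨m, hm⟩ := K6.H77.WT.exists_hasM ρ τ c
    refine ⟨m, (K6.H77.WT.isMean_comb ρ τ c).2 hm, fun B hB η hη => ?_⟩
    filter_upwards [K6.H77.WT.sup_ineq (K6.H77.WT.ME W hΔ) ρ τ c B (fun k => hT (hB k)) hm hη]
      with ε h1
    simp only [hsize] at h1
    rwa [hrank] at h1
  · have hm' := (K6.H77.WT.isMean_comb ρ τ (fun k => w k * a k)).1 hm
    refine ⟨K6.H77.WT.mean_le_sqrt h a hQ hm', fun heq => ⟨?_, ?_⟩⟩
    · by_contra hD
      exact (K6.H77.WT.mean_lt_of_dim h a hQ hD hm').ne heq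
    · by_contra hD
      exact (K6.H77.WT.mean_lt_of_inf' h a hQ hD hm').ne heq
  · filter_upwards [K6.H77.WT.unrel_size (K6.H77.WT.ME W hΔ) h B (fun k => hT (hB k)) hη] with ε h1
    simp only [hsize] at h1
    rw [hrank] at h1
    linarith
  · have hle : ∑ k, (w k : ℤ) * r k ^ 2 ≤ 4 :=
      K6.H77.WT.unrel_le (K6.H77.WT.ME W hΔ) h B (fun k => hT (hB k)) r (fun k => hord (hr k))
    have heq : ∑ k, (w k : ℤ) * r k ^ 2 = 4 → |∑ k, (w k : ℤ) * r k * dm (ρ k)| = 2 ∧
        (∑ k, if NonArtin (shift (ρ k) (τ k)) then (w k : ℤ) * r k * dm (ρ k) else 0) = 0 :=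
      fun h4 => K6.H77.WT.unrel_eq' (K6.H77.WT.ME W hΔ) h B (fun k => hT (hB k)) r
        (fun k => hord (hr k)) h4
    have hw : ∀ k, (w k : ℤ) = 1 ∨ (w k : ℤ) = 2 := fun k => by
      rcases h.2.1 k with ⟨h5, -⟩ | ⟨h5, -⟩
      · left; rw [h5]; rfl
      · right; rw [h5]; rfl
    have hnn : ∀ k, 0 ≤ (w k : ℤ) * r k ^ 2 := fun k => by positivity
    refine ⟨hle, heq, fun hJ => ?_, fun hdim => ⟨fun k hk => ?_, fun k l hkl hwk hwl hrk hrl => ?_⟩⟩
    · by_contra hcon
      have h4 : ∑ k, (w k : ℤ) * r k ^ 2 = 4 := by omega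
      obtain ⟨h5, h6⟩ := heq h4
      simp only [hJ, if_true] at h6
      rw [h6, abs_zero] at h5
      norm_num at h5
    · have h1 : (4 : ℤ) ≤ r k ^ 2 := by
        rw [← sq_abs]
        nlinarith
      have h2 : (w k : ℤ) * r k ^ 2 + ∑ l ∈ Finset.univ.erase k, (w l : ℤ) * r l ^ 2 =
          ∑ l, (w l : ℤ) * r l ^ 2 :=
        Finset.add_sum_erase _ (fun l => (w l : ℤ) * r l ^ 2) (Finset.mem_univ k)
      have h3 : 0 ≤ ∑ l ∈ Finset.univ.erase k, (w l : ℤ) * r l ^ 2 :=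
        Finset.sum_nonneg fun l _ => hnn l
      have hw1 : (w k : ℤ) = 1 := by
        rcases hw k with h4 | h4
        · exact h4
        · rw [h4] at h2
          linarith
      rw [hw1, one_mul] at h2
      have h4 : r k ^ 2 = 4 := by linarith
      have h5 : ∑ l ∈ Finset.univ.erase k, (w l : ℤ) * r l ^ 2 = 0 := by linarith
      have h6 : ∀ l, l ≠ k → r l = 0 := by
        intro l hl
        have h7 := (Finset.sum_eq_zero_iff_of_nonneg (fun l _ => hnn l)).1 h5 l
          (Finset.mem_erase.2 ⟨hl, Finset.mem_univ l⟩)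
        rcases mul_eq_zero.1 h7 with h8 | h8
        · rcases hw l with h9 | h9 <;> rw [h9] at h8 <;> norm_num at h8
        · exact pow_eq_zero_iff (two_ne_zero) |>.1 h8
      have h7 : |r k| = 2 := by
        have h8 : |r k| ^ 2 = 4 := by rw [sq_abs, h4]
        nlinarith [abs_nonneg (r k)]
      obtain ⟨h8, h9⟩ := heq (by linarith)
      rw [Finset.sum_eq_single k (fun l _ hl => by rw [h6 l hl]; ring)
        (fun h => absurd (Finset.mem_univ k) h), hw1, one_mul, abs_mul, h7,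
        abs_of_pos (hdim k)] at h8
      rw [Finset.sum_eq_single k (fun l _ hl => by rw [h6 l hl]; simp)
        (fun h => absurd (Finset.mem_univ k) h)] at h9
      refine ⟨h7, by exact_mod_cast hw1, by omega, fun hN => ?_, h6⟩
      rw [if_pos hN, hw1, one_mul, mul_eq_zero] at h9
      rcases h9 with h10 | h10
      · rw [h10] at h4
        norm_num at h4
      · exact (hdim k).ne' h10
    · have h1 : (1 : ℤ) ≤ r k ^ 2 := by
        have : 0 < r k ^ 2 := by positivity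
        omega
      have h2 : (1 : ℤ) ≤ r l ^ 2 := by
        have : 0 < r l ^ 2 := by positivity
        omega
      have hwk' : (w k : ℤ) = 2 := by rw [hwk]; rfl
      have hwl' : (w l : ℤ) = 2 := by rw [hwl]; rfl
      have hlmem : l ∈ Finset.univ.erase k := Finset.mem_erase.2 ⟨hkl.symm, Finset.mem_univ l⟩
      have h3 : (w k : ℤ) * r k ^ 2 + ((w l : ℤ) * r l ^ 2 +
          ∑ j ∈ (Finset.univ.erase k).erase l, (w j : ℤ) * r j ^ 2) =
          ∑ j, (w j : ℤ) * r j ^ 2 := by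
        rw [Finset.add_sum_erase _ (fun j => (w j : ℤ) * r j ^ 2) hlmem,
          Finset.add_sum_erase _ (fun j => (w j : ℤ) * r j ^ 2) (Finset.mem_univ k)]
      have h4 : 0 ≤ ∑ j ∈ (Finset.univ.erase k).erase l, (w j : ℤ) * r j ^ 2 :=
        Finset.sum_nonneg fun j _ => hnn j
      rw [hwk', hwl'] at h3
      have h5 : r k ^ 2 = 1 := by omega
      have h6 : r l ^ 2 = 1 := by omega
      have h7 : ∑ j ∈ (Finset.univ.erase k).erase l, (w j : ℤ) * r j ^ 2 = 0 := by omega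
      have h8 : ∀ j, j ≠ k → j ≠ l → r j = 0 := by
        intro j hj hj'
        have h9 := (Finset.sum_eq_zero_iff_of_nonneg (fun j _ => hnn j)).1 h7 j
          (Finset.mem_erase.2 ⟨hj', Finset.mem_erase.2 ⟨hj, Finset.mem_univ j⟩⟩)
        rcases mul_eq_zero.1 h9 with h10 | h10
        · rcases hw j with h11 | h11 <;> rw [h11] at h10 <;> norm_num at h10
        · exact pow_eq_zero_iff (two_ne_zero) |>.1 h10
      have hsum : ∀ g : κ → ℤ, (∀ j, r j = 0 → g j = 0) → ∑ j, g j = g k + g l := by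
        intro g hg
        rw [← Finset.add_sum_erase _ g (Finset.mem_univ k), ← Finset.add_sum_erase _ g hlmem,
          Finset.sum_eq_zero (s := (Finset.univ.erase k).erase l) fun j hj => by
            rw [Finset.mem_erase, Finset.mem_erase] at hj
            exact hg j (h8 j hj.2.1 hj.1), add_zero]
      obtain ⟨h9, h10⟩ := heq (by omega)
      rw [hsum _ (fun j hj => by rw [hj]; ring), hwk', hwl'] at h9
      rw [hsum _ (fun j hj => by rw [hj]; simp), hwk', hwl'] at h10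
      have hpm : ∀ z : ℤ, z ^ 2 = 1 → z = 1 ∨ z = -1 := by
        intro z hz
        have h11 : (z - 1) * (z + 1) = 0 := by linarith [sq z]
        rcases mul_eq_zero.1 h11 with h12 | h12
        · left; linarith
        · right; linarith
      have hdk := hdim k
      have hdl := hdim l
      have h9' := (abs_eq (by norm_num : (0 : ℤ) ≤ 2)).1 h9
      have hfin : ¬ NonArtin (shift (ρ k) (τ k)) ∧ ¬ NonArtin (shift (ρ l) (τ l)) ∧
          (dm (ρ k) - dm (ρ l) = 1 ∨ dm (ρ k) - dm (ρ l) = -1) ∧ r l = -r k := by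
        by_cases hNk : NonArtin (shift (ρ k) (τ k)) <;> by_cases hNl : NonArtin (shift (ρ l) (τ l))
        · rw [if_pos hNk, if_pos hNl] at h10
          exfalso
          omega
        · rw [if_pos hNk, if_neg hNl] at h10
          exfalso
          rcases hpm _ h5 with h11 | h11 <;> rw [h11] at h10 <;> omega
        · rw [if_neg hNk, if_pos hNl] at h10
          exfalso
          rcases hpm _ h6 with h11 | h11 <;> rw [h11] at h10 <;> omega
        · refine ⟨hNk, hNl, ?_, ?_⟩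
          · rcases hpm _ h5 with h11 | h11 <;> rcases hpm _ h6 with h12 | h12 <;>
              rw [h11, h12] at h9' <;> omega
          · rcases hpm _ h5 with h11 | h11 <;> rcases hpm _ h6 with h12 | h12 <;>
              rw [h11, h12] at h9' ⊢ <;> omega
      refine ⟨hfin.1, hfin.2.1, (abs_eq zero_le_one).2 hfin.2.2.1,
        (abs_eq zero_le_one).2 (hpm _ h5), hfin.2.2.2, h8⟩
  · obtain ⟨h1, -⟩ := K6.H65.WS.tensor_size (hT hB) τ
    obtain ⟨r, h2, h3⟩ := K6.H65.WS.order_of_continuation (K6.H77.WT.ME W hΔ).weight B τ h1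
      (Λ := Λ) (by rw [hedge]; exact hΛ1) (by
        rw [hedge]
        filter_upwards [hΛ2] with s hs h4
        refine hs ?_
        have e : (((K6.H77.WT.ME W hΔ).weight : ℤ) : ℝ) = 1 := Int.cast_one
        rw [e] at h4
        linarith)
    rw [hedge] at h2
    exact ⟨r, h2, h3.congr fun ε => hsize B τ ε⟩

end Pool.Agent.Results.MP_bf61d2_nt.WeilTwistsMean
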